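import Pool.Agent.helper55.NM.Spec

set_option autoImplicit false

namespace Pool.Agent.NM

open Finset Nat

private theorem PTB_mono {q : ℕ} (y : Fin q → ℝ) (τ : Equiv.Perm (Fin q)) (hy : ∀ i, 0 < y i)
    {i j : ℕ} (hij : i ≤ j) : Yp y τ i ≤ Yp y τ j := by
  unfold Yp
  refine sum_le_sum_of_subset_of_nonneg ?_ (fun a _ _ => (hy _).le)
  intro a ha
  rw [mem_filter] at ha ⊢
  exact ⟨ha.1, lt_of_lt_of_le ha.2 hij⟩

private theorem PTB_strict {q : ℕ} (y : Fin q → ℝ) (τ : Equiv.Perm (Fin q)) (hy : ∀ i, 0 < y i)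
    {i j : ℕ} (hij : i < j) (hj : j ≤ q) : Yp y τ i < Yp y τ j := by
  unfold Yp
  refine sum_lt_sum_of_subset ?_ (i := ⟨i, lt_of_lt_of_le hij hj⟩) ?_ ?_ (hy _) (fun a _ _ => (hy _).le)
  · intro a ha
    rw [mem_filter] at ha ⊢
    exact ⟨ha.1, ha.2.trans hij⟩
  · rw [mem_filter]
    exact ⟨mem_univ _, hij⟩
  · rw [mem_filter]
    rintro ⟨_, h⟩
    exact absurd h (lt_irrefl _)

private theorem PTB_inj {q : ℕ} (y : Fin q → ℝ) (τ : Equiv.Perm (Fin q)) (hy : ∀ i, 0 < y i)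
    {i j : ℕ} (hi : i ≤ q) (hj : j ≤ q) (h : Yp y τ i = Yp y τ j) : i = j := by
  rcases lt_trichotomy i j with h1 | h1 | h1
  · exact absurd h (PTB_strict y τ hy h1 hj).ne
  · exact h1
  · exact absurd h.symm (PTB_strict y τ hy h1 hi).ne

theorem PTB (hGG2 : GG2_stmt) (hGG3 : GG3_stmt) (hBIN : BIN_stmt) : PTB_stmt := by
  classical
  intro p q k L X y ε τ hX hy hp hε hpL hkq hp2 hρ1 hρ2 hkR hgood
  set ρ : ℝ := (k : ℝ) / ((p : ℝ) + q) with hρ
  have hε12 : ε ≤ 1 / 12 := by linarith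
  have hρ0 : 0 ≤ ρ := by linarith
  have hρ1' : 0 ≤ 1 - ρ := by linarith
  have hR0 : (0 : ℝ) ≤ 1 - 2 * ε := by linarith
  have hR1 : 1 - 2 * ε ≤ 1 := by linarith
  set P : Finset (Fin p) → ℕ → Prop := fun I j => I.card + j ≤ k ∧ Yp y τ j = ∑ i ∈ I, X i with hP
  set jf : Finset (Fin p) → ℕ := fun I => if h : ∃ j, P I j then h.choose else 0 with hjfdef
  set d : Finset (Fin p) → ℕ := fun I => k - I.card - jf I with hd
  have hjf : ∀ I, (∃ j, P I j) → P I (jf I) := by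
    intro I h
    have e : jf I = h.choose := by rw [hjfdef]; exact dif_pos h
    rw [e]
    exact h.choose_spec
  have huniq : ∀ I j, P I j → j = jf I := by
    intro I j hj
    have h2 := hjf I ⟨j, hj⟩
    have h3 : I.card + j ≤ k := hj.1
    have h4 : I.card + jf I ≤ k := h2.1
    exact PTB_inj y τ hy (by omega) (by omega) (hj.2.trans h2.2.symm)
  set Cn : Finset (Finset (Fin p)) := univ.filter (fun I : Finset (Fin p) => I.Nonempty ∧ ∃ j, P I j) with hCn
  have hW : (Wt X y k τ : ℝ) = ∑ I ∈ Cn, (q.choose (jf I) : ℝ) := by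
    have h1 : Wt X y k τ = ∑ I ∈ Cn, q.choose (jf I) := by
      unfold Wt
      rw [hCn, ← filter_filter, sum_filter (s := univ.filter (fun I : Finset (Fin p) => I.Nonempty))]
      refine sum_congr rfl fun I _ => ?_
      by_cases h : ∃ j, P I j
      · rw [if_pos h, sum_eq_single (jf I)]
        · exact if_pos (hjf I h)
        · intro j _ hne
          exact if_neg (fun h2 => hne (huniq I j h2))
        · intro hn
          exfalso
          apply hn
          have := (hjf I h).1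
          rw [mem_range]
          omega
      · rw [if_neg h]
        exact sum_eq_zero fun j _ => if_neg (fun h2 => h ⟨j, h2⟩)
    rw [h1]
    push_cast
    rfl
  have hcard : ∀ I : Finset (Fin p), I.card ≤ p := fun I => by
    have := card_le_univ I
    rwa [Fintype.card_fin] at this
  have hmem : ∀ I ∈ Cn, I.Nonempty ∧ P I (jf I) := by
    intro I hI
    rw [hCn, mem_filter] at hI
    exact ⟨hI.2.1, hjf I hI.2.2⟩
  have hsumk : ∀ I ∈ Cn, I.card + jf I + d I = k := by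
    intro I hI
    have h1 : I.card + jf I ≤ k := (hmem I hI).2.1
    have h2 : d I = k - I.card - jf I := rfl
    omega
  have hb : ∀ I ∈ Cn, (1 - (p : ℝ) ^ 2 / ((p : ℝ) + q)) * (q.choose (jf I) : ℝ) ≤
      ρ ^ I.card * (1 - ρ) ^ (p - I.card) * (1 - 2 * ε) ^ d I * ((p + q).choose k : ℝ) := by
    intro I hI
    have h1 := hsumk I hI
    have h2 := hBIN p q k I.card (d I) (1 - 2 * ε) (hcard I) (by omega) hkq hp2 hR0 hkR
    have e : k - I.card - d I = jf I := by omega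
    rw [e] at h2
    exact h2
  -- the good order
  have hYk0 : 0 ≤ Yp y τ k := by
    unfold Yp
    exact sum_nonneg fun a _ => (hy _).le
  have hg : (p : ℝ) * Yp y τ k < ((p : ℝ) + 1) * Yp y τ (k - (p + L)) := by
    rw [not_le] at hgood
    push_cast at hgood
    linarith
  set S : Finset (Fin p) := univ.filter (fun e : Fin p => ((p : ℝ) + 1) * X e < Yp y τ k) with hS
  set H : Finset (Finset (Fin p)) := Cn.filter (fun I => d I ≤ L) with hH
  have hH1 : ∀ I ∈ H, (p : ℝ) * Yp y τ k < ((p : ℝ) + 1) * ∑ i ∈ I, X i := by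
    intro I hI
    rw [hH, mem_filter] at hI
    have h1 := (hmem I hI.1).2.2
    have h2 := hsumk I hI.1
    have h3 := hcard I
    have h4 : Yp y τ (k - (p + L)) ≤ Yp y τ (jf I) := PTB_mono y τ hy (by omega)
    rw [← h1]
    refine lt_of_lt_of_le hg (mul_le_mul_of_nonneg_left h4 (by positivity))
  have hH2 : ∀ I ∈ H, ∑ i ∈ I, X i ≤ Yp y τ k := by
    intro I hI
    rw [hH, mem_filter] at hI
    have h1 := (hmem I hI.1).2.2
    have h2 := hsumk I hI.1
    rw [← h1]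
    exact PTB_mono y τ hy (by omega)
  have hHyp : Hyp p S H d := by
    refine ⟨?_, ?_, ?_⟩
    · intro I hI hIS
      have h1 := hH1 I hI
      have h2 : ((p : ℝ) + 1) * ∑ i ∈ I, X i ≤ (p : ℝ) * Yp y τ k := by
        rw [mul_sum]
        calc ∑ i ∈ I, ((p : ℝ) + 1) * X i ≤ ∑ i ∈ I, Yp y τ k := by
              refine sum_le_sum fun i hi => ?_
              have := hIS hi
              rw [hS, mem_filter] at this
              exact this.2.le
          _ = (I.card : ℝ) * Yp y τ k := by rw [sum_const, nsmul_eq_mul]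
          _ ≤ (p : ℝ) * Yp y τ k := by
              refine mul_le_mul_of_nonneg_right ?_ hYk0
              exact_mod_cast hcard I
      linarith
    · intro I₁ h₁ I₂ h₂ hS12 hsub
      by_contra hne
      obtain ⟨e, he2, he1⟩ := exists_of_ssubset (hsub.ssubset_of_ne hne)
      have heS : e ∉ S := by
        intro heS
        have : e ∈ I₂ ∩ S := mem_inter.2 ⟨he2, heS⟩
        rw [← hS12] at this
        exact he1 (mem_inter.1 this).1
      have h3 : Yp y τ k ≤ ((p : ℝ) + 1) * X e := by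
        by_contra hlt
        rw [not_le] at hlt
        exact heS (by rw [hS, mem_filter]; exact ⟨mem_univ _, hlt⟩)
      have h4 : ∑ i ∈ I₁, X i + X e ≤ ∑ i ∈ I₂, X i := by
        have h5 : insert e I₁ ⊆ I₂ := insert_subset he2 hsub
        have h6 : ∑ i ∈ insert e I₁, X i ≤ ∑ i ∈ I₂, X i :=
          sum_le_sum_of_subset_of_nonneg h5 (fun a _ _ => (hX a).le)
        rw [sum_insert he1] at h6
        linarith
      have h5 := hH1 I₁ h₁
      have h6 := hH2 I₂ h₂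
      have hp1 : (0 : ℝ) ≤ (p : ℝ) + 1 := by positivity
      have h7 : ((p : ℝ) + 1) * (∑ i ∈ I₁, X i + X e) ≤ ((p : ℝ) + 1) * Yp y τ k :=
        mul_le_mul_of_nonneg_left (h4.trans h6) hp1
      have h8 : ((p : ℝ) + 1) * (∑ i ∈ I₁, X i + X e) = ((p : ℝ) + 1) * ∑ i ∈ I₁, X i + ((p : ℝ) + 1) * X e := by ring
      have h9 : ((p : ℝ) + 1) * Yp y τ k = (p : ℝ) * Yp y τ k + Yp y τ k := by ring
      linarith
    · intro I₁ h₁ I₂ h₂ hlt
      rw [hH, mem_filter] at h₁ h₂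
      have e1 := (hmem I₁ h₁.1).2.2
      have e2 := (hmem I₂ h₂.1).2.2
      have k1 := hsumk I₁ h₁.1
      have k2 := hsumk I₂ h₂.1
      obtain ⟨e, he2, he1⟩ := exists_of_ssubset hlt
      have h3 : ∑ i ∈ I₁, X i < ∑ i ∈ I₂, X i :=
        sum_lt_sum_of_subset hlt.1 he2 he1 (hX e) (fun a _ _ => (hX a).le)
      have h4 : jf I₁ < jf I₂ := by
        by_contra hge
        rw [not_lt] at hge
        have h5 := PTB_mono y τ hy hge
        rw [e1, e2] at h5
        linarith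
      have h6 : I₁.card < I₂.card := card_lt_card hlt
      omega
  have hmain : ∑ I ∈ H, ρ ^ I.card * (1 - ρ) ^ (p - I.card) * (1 - 2 * ε) ^ d I ≤
      (1 - ε) * (2 * ρ * (1 - ρ)) := by
    rcases Nat.lt_or_ge (univ \ S).card 3 with h | h
    · exact hGG2 p S H d ε ρ (1 - 2 * ε) hHyp hε hρ1 hρ2 hR0 le_rfl hp (by omega)
    · exact hGG3 p S H d ε ρ (1 - 2 * ε) hHyp hε hρ1 hρ2 hR0 le_rfl h
  have hw0 : ∀ I : Finset (Fin p), 0 ≤ ρ ^ I.card * (1 - ρ) ^ (p - I.card) := fun I =>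
    mul_nonneg (pow_nonneg hρ0 _) (pow_nonneg hρ1' _)
  have hrest : ∑ I ∈ Cn.filter (fun I => ¬ d I ≤ L), ρ ^ I.card * (1 - ρ) ^ (p - I.card) * (1 - 2 * ε) ^ d I ≤
      (1 - 2 * ε) ^ L := by
    have h1 : ∑ I ∈ Cn.filter (fun I => ¬ d I ≤ L), ρ ^ I.card * (1 - ρ) ^ (p - I.card) * (1 - 2 * ε) ^ d I ≤
        ∑ I ∈ Cn.filter (fun I => ¬ d I ≤ L), ρ ^ I.card * (1 - ρ) ^ (p - I.card) * (1 - 2 * ε) ^ L := by
      refine sum_le_sum fun I hI => ?_
      rw [mem_filter] at hI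
      exact mul_le_mul_of_nonneg_left (pow_le_pow_of_le_one hR0 hR1 (by omega)) (hw0 I)
    have h2 : ∑ I ∈ Cn.filter (fun I => ¬ d I ≤ L), ρ ^ I.card * (1 - ρ) ^ (p - I.card) * (1 - 2 * ε) ^ L ≤
        ∑ I : Finset (Fin p), ρ ^ I.card * (1 - ρ) ^ (p - I.card) * (1 - 2 * ε) ^ L :=
      sum_le_sum_of_subset_of_nonneg (subset_univ _)
        (fun I _ _ => mul_nonneg (hw0 I) (pow_nonneg hR0 _))
    have h3 : ∑ I : Finset (Fin p), ρ ^ I.card * (1 - ρ) ^ (p - I.card) * (1 - 2 * ε) ^ L = (1 - 2 * ε) ^ L := by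
      rw [← sum_mul]
      have h4 := Fintype.sum_pow_mul_eq_add_pow (Fin p) ρ (1 - ρ)
      rw [Fintype.card_fin] at h4
      rw [h4, add_sub_cancel, one_pow, one_mul]
    linarith
  have hsplit : ∑ I ∈ Cn, ρ ^ I.card * (1 - ρ) ^ (p - I.card) * (1 - 2 * ε) ^ d I =
      ∑ I ∈ H, ρ ^ I.card * (1 - ρ) ^ (p - I.card) * (1 - 2 * ε) ^ d I +
      ∑ I ∈ Cn.filter (fun I => ¬ d I ≤ L), ρ ^ I.card * (1 - ρ) ^ (p - I.card) * (1 - 2 * ε) ^ d I :=
    (sum_filter_add_sum_filter_not Cn (fun I => d I ≤ L) _).symm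
  rw [hW, mul_sum]
  calc ∑ I ∈ Cn, (1 - (p : ℝ) ^ 2 / ((p : ℝ) + q)) * (q.choose (jf I) : ℝ)
      ≤ ∑ I ∈ Cn, ρ ^ I.card * (1 - ρ) ^ (p - I.card) * (1 - 2 * ε) ^ d I * ((p + q).choose k : ℝ) :=
        sum_le_sum hb
    _ = (∑ I ∈ Cn, ρ ^ I.card * (1 - ρ) ^ (p - I.card) * (1 - 2 * ε) ^ d I) * ((p + q).choose k : ℝ) := by
        rw [sum_mul]
    _ ≤ ((1 - ε) * (2 * ρ * (1 - ρ)) + (1 - 2 * ε) ^ L) * ((p + q).choose k : ℝ) := by
        refine mul_le_mul_of_nonneg_right ?_ (by positivity)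
        rw [hsplit]
        linarith

end Pool.Agent.NM
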